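import Pool.Agent.J6H75.FM.Dsc0
import Pool.Agent.J6H55.FM.Stm
import Pool.Agent.J6H55.FM.Stm2

/-!
# FM-DSC: from the geometric generic fibre to a finite cover of the base (main part)
-/

set_option autoImplicit false

namespace Pool.Agent.J6H75.FM

open Polynomial
open Pool.Agent.J6H55.FM
open Pool.Agent.W602.GT (coords)
open Pool.Agent.W277.UH (ratP1)
open Pool.Agent.Q103.EC (prePer ratP1_map)
open Pool.Agent.Q103.VR (DefinedOver)

section

variable {β : Type} {M : ℕ} {L Λ : Type} [Field L] [Algebra ℂ L] [Field Λ] [Algebra ℂ Λ]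
  [Algebra L Λ] [IsScalarTower ℂ L Λ]

variable (Λ) in
/-- the base coordinates in the algebraic closure of `ℂ(b)` -/
noncomputable def bb (b : β → L) (i : β) : Om Λ b := ⟨algebraMap L Λ (b i), b_mem_Om b i⟩

theorem Om_algebraic (b : β → L) :
    Algebra.IsAlgebraic (IntermediateField.adjoin ℂ (Set.range (bb Λ b))) (Om Λ b) := by
  refine ⟨fun x => ?_⟩
  have h1 : IsAlgebraic (IntermediateField.adjoin ℂ (Set.range (bb Λ b))) (x : Λ) :=
    Om_alg (L := L) (b := b) (K' := Om Λ b) (T := IntermediateField.adjoin ℂ (Set.range (bb Λ b))) (b' := bb Λ b)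
      (fun i => rfl) (fun i => IntermediateField.subset_adjoin ℂ _ (Set.mem_range_self i)) x.2
  exact (isAlgebraic_algebraMap_iff (A := Λ) (algebraMap (Om Λ b) Λ).injective).1 h1

instance tower_EE (b : β → L) (z : Fin (M + 1) → L) : IsScalarTower ℂ (EE Λ b z) Λ :=
  IsScalarTower.of_algebraMap_eq fun _ => rfl

variable (Λ) in
/-- the fibre coordinates -/
noncomputable def zz {b : β → L} {z : Fin (M + 1) → L}
    (hgen : IntermediateField.adjoin ℂ (Set.range b ∪ ratios z) = ⊤) (j₀ j : Fin (M + 1)) :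
    EE Λ b z := ⟨algebraMap L Λ (z j / z j₀), L_mem_EE hgen _⟩

theorem zz_ne {b : β → L} {z : Fin (M + 1) → L}
    (hgen : IntermediateField.adjoin ℂ (Set.range b ∪ ratios z) = ⊤) {j₀ : Fin (M + 1)}
    (hj₀ : z j₀ ≠ 0) : zz Λ hgen j₀ ≠ 0 := by
  intro h
  have h1 := congrArg (fun x : EE Λ b z => (x : Λ)) (congrFun h j₀)
  have h2 : algebraMap L Λ (z j₀ / z j₀) = 0 := h1
  rw [div_self hj₀, map_one] at h2
  exact one_ne_zero h2

theorem coords_zz {b : β → L} {z : Fin (M + 1) → L}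
    (hgen : IntermediateField.adjoin ℂ (Set.range b ∪ ratios z) = ⊤) {j₀ : Fin (M + 1)}
    (hj₀ : z j₀ ≠ 0) : coords (Om Λ b) (zz Λ hgen j₀) = ⊤ := by
  apply IntermediateField.map_injective (EE Λ b z).val
  rw [← AlgHom.fieldRange_eq_map, IntermediateField.fieldRange_val]
  unfold coords
  rw [IntermediateField.adjoin_map]
  change _ = IntermediateField.adjoin (Om Λ b) (Rt Λ z)
  congr 1
  ext y
  constructor
  · rintro ⟨_, ⟨i, j, hj, rfl⟩, rfl⟩
    refine ⟨i, j, ?_, ?_⟩
    · intro h0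
      apply hj
      apply Subtype.ext
      change algebraMap L Λ (z j / z j₀) = 0
      rw [h0, zero_div, map_zero]
    · change algebraMap L Λ (z i / z j₀) / algebraMap L Λ (z j / z j₀) = _
      rw [← map_div₀, div_div_div_cancel_right₀ hj₀]
  · rintro ⟨i, j, hj, rfl⟩
    refine ⟨zz Λ hgen j₀ i / zz Λ hgen j₀ j, ⟨i, j, ?_, rfl⟩, ?_⟩
    · intro h0
      have h1 : algebraMap L Λ (z j / z j₀) = 0 := congrArg (fun x : EE Λ b z => (x : Λ)) h0
      rw [map_eq_zero, div_eq_zero_iff] at h1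
      rcases h1 with h1 | h1
      · exact hj h1
      · exact hj₀ h1
    · change algebraMap L Λ (z i / z j₀) / algebraMap L Λ (z j / z j₀) = _
      rw [← map_div₀, div_div_div_cancel_right₀ hj₀]

theorem rel_zz {b : β → L} {z : Fin (M + 1) → L}
    (hgen : IntermediateField.adjoin ℂ (Set.range b ∪ ratios z) = ⊤) {j₀ : Fin (M + 1)}
    (G : MvPolynomial (β ⊕ Fin (M + 1)) ℂ) (hG : IsRel G) (h : rv b z G = 0) :
    rv (fun i => algebraMap (Om Λ b) (EE Λ b z) (bb Λ b i)) (zz Λ hgen j₀) G = 0 := by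
  obtain ⟨e, he⟩ := hG
  have h1 : rv b (fun j => (z j₀)⁻¹ * z j) G = 0 := by
    rw [rv_smul b z _ he, h, mul_zero]
  have h2 := rv_map (IsScalarTower.toAlgHom ℂ L Λ) b (fun j => (z j₀)⁻¹ * z j) G
  rw [h1, map_zero] at h2
  have h3 := rv_map (IsScalarTower.toAlgHom ℂ (EE Λ b z) Λ)
    (fun i => algebraMap (Om Λ b) (EE Λ b z) (bb Λ b i)) (zz Λ hgen j₀) G
  have h4 : (fun j => IsScalarTower.toAlgHom ℂ (EE Λ b z) Λ (zz Λ hgen j₀ j)) =
      fun j => IsScalarTower.toAlgHom ℂ L Λ ((z j₀)⁻¹ * z j) := by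
    funext j
    change algebraMap L Λ (z j / z j₀) = algebraMap L Λ ((z j₀)⁻¹ * z j)
    rw [div_eq_inv_mul]
  have h5 : (fun i => IsScalarTower.toAlgHom ℂ (EE Λ b z) Λ
      (algebraMap (Om Λ b) (EE Λ b z) (bb Λ b i))) =
      fun i => IsScalarTower.toAlgHom ℂ L Λ (b i) := rfl
  rw [h4, h5, ← h2] at h3
  exact (map_eq_zero (IsScalarTower.toAlgHom ℂ (EE Λ b z) Λ)).1 h3

variable (Λ) in
/-- the conclusion, for a given algebraic closure -/
theorem key [IsAlgClosed Λ] [Algebra.IsAlgebraic L Λ] (B : ℕ → ℕ) {b : β → L}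
    {z : Fin (M + 1) → L}
    (hgen : IntermediateField.adjoin ℂ (Set.range b ∪ ratios z) = ⊤) {j₀ : Fin (M + 1)}
    (hj₀ : z j₀ ≠ 0) (hC : CarriesOver B (Om Λ b) (EE Λ b z)) :
    ∃ (K : Type) (_ : Field K) (_ : Algebra ℂ K) (ι : L →ₐ[ℂ] K) (m : ℕ) (θ : Fin m → K),
      (∀ i, IsAlgebraic (IntermediateField.adjoin ℂ (Set.range fun i => ι (b i))) (θ i)) ∧
      IsGen (Sum.elim (fun i => ι (b i)) θ) (fun j => ι (z j)) ∧
      RelCarries B (Sum.elim (fun i => ι (b i)) θ) := by
  classical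
  obtain ⟨J, hJ, d, p, q, hd, hco, hmax, hmany, hF⟩ := hC
  -- finitely many preperiodic points
  have hP : ∀ j, ∃ P : Set (Option (EE Λ b z)), P ⊆ prePer (d j) (p j) (q j) ∧
      P.encard = (B (d j) : ℕ∞) := fun j => Set.exists_subset_encard_eq (hmany j)
  choose P hP1 hP2 using hP
  have hPfin : ∀ j, (P j).Finite := fun j => Set.finite_of_encard_eq_coe (hP2 j)
  -- the finite set of the elements which have to be in `K`
  set S : Set Λ := ⋃ j, (fun x : EE Λ b z => (x : Λ)) ''
    (Set.range (p j).coeff ∪ Set.range (q j).coeff ∪ {x | some x ∈ P j}) with hS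
  have hSfin : S.Finite := by
    refine Set.finite_iUnion fun j => Set.Finite.image _ ?_
    refine ((range_coeff_finite _).union (range_coeff_finite _)).union ?_
    exact (hPfin j).preimage (Option.some_injective _).injOn
  have hSE : S ⊆ IntermediateField.adjoin ℂ ((Om Λ b : Set Λ) ∪ Rt Λ z) := by
    rw [← IntermediateField.restrictScalars_adjoin]
    intro y hy
    obtain ⟨j, hj⟩ := Set.mem_iUnion.1 hy
    obtain ⟨x, -, rfl⟩ := hj
    exact x.2
  obtain ⟨T, hT1, hT2⟩ := exists_finset hSfin hSE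
  set T' : Finset Λ := T.filter (fun x => x ∈ Om Λ b) with hT'
  let θ' : Fin T'.card → Λ := fun i => (T'.equivFin.symm i : Λ)
  have hθ' : ∀ i, θ' i ∈ Om Λ b := fun i => (Finset.mem_filter.1 (T'.equivFin.symm i).2).2
  have hθr : ∀ x ∈ T', ∃ i, θ' i = x := by
    intro x hx
    refine ⟨T'.equivFin ⟨x, hx⟩, ?_⟩
    change ((T'.equivFin.symm (T'.equivFin ⟨x, hx⟩) : T') : Λ) = x
    rw [Equiv.symm_apply_apply]
  set GG : Set Λ := Set.range (fun i => algebraMap L Λ (b i)) ∪ Set.range θ' ∪ Rt Λ z with hGG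
  set K₀ : IntermediateField ℂ Λ := IntermediateField.adjoin ℂ GG with hK₀
  have hbK : ∀ i, algebraMap L Λ (b i) ∈ K₀ := fun i =>
    IntermediateField.subset_adjoin ℂ _ (Or.inl (Or.inl ⟨i, rfl⟩))
  have hθK : ∀ i, θ' i ∈ K₀ := fun i =>
    IntermediateField.subset_adjoin ℂ _ (Or.inl (Or.inr ⟨i, rfl⟩))
  have hRK : Rt Λ z ⊆ K₀ := fun x hx => IntermediateField.subset_adjoin ℂ _ (Or.inr hx)
  have hLK : ∀ x : L, algebraMap L Λ x ∈ K₀ := fun x => L_mem hgen hbK hRK x
  have hSK : S ⊆ K₀ := by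
    refine hT2.trans ?_
    change IntermediateField.adjoin ℂ (T : Set Λ) ≤ K₀
    rw [IntermediateField.adjoin_le_iff]
    intro x hx
    rcases hT1 hx with h | h
    · obtain ⟨i, rfl⟩ := hθr x (Finset.mem_filter.2 ⟨hx, h⟩)
      exact hθK i
    · exact hRK h
  have hKE : ∀ x ∈ K₀, x ∈ EE Λ b z := by
    have h1 : K₀ ≤ (EE Λ b z).restrictScalars ℂ := by
      rw [hK₀, IntermediateField.adjoin_le_iff]
      rintro x ((⟨i, rfl⟩ | ⟨i, rfl⟩) | hx)
      · exact L_mem_EE hgen (b i)
      · exact (EE Λ b z).algebraMap_mem ⟨θ' i, hθ' i⟩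
      · exact IntermediateField.subset_adjoin _ _ hx
    exact fun x hx => h1 hx
  let ι : L →ₐ[ℂ] K₀ :=
    { toFun := fun x => ⟨algebraMap L Λ x, hLK x⟩
      map_one' := Subtype.ext (map_one (algebraMap L Λ))
      map_mul' := fun x y => Subtype.ext (map_mul (algebraMap L Λ) x y)
      map_zero' := Subtype.ext (map_zero (algebraMap L Λ))
      map_add' := fun x y => Subtype.ext (map_add (algebraMap L Λ) x y)
      commutes' := fun c => Subtype.ext (IsScalarTower.algebraMap_apply ℂ L Λ c).symm }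
  have hι : ∀ x, ((ι x : K₀) : Λ) = algebraMap L Λ x := fun x => rfl
  let θ : Fin T'.card → K₀ := fun i => ⟨θ' i, hθK i⟩
  let φ : K₀ →+* EE Λ b z :=
    { toFun := fun x => ⟨x, hKE x x.2⟩
      map_one' := rfl
      map_mul' := fun x y => rfl
      map_zero' := rfl
      map_add' := fun x y => rfl }
  have hφ : ∀ x, ((φ x : EE Λ b z) : Λ) = x := fun x => rfl
  have hφr : ∀ x : EE Λ b z, (x : Λ) ∈ K₀ → ∃ y, φ y = x := fun x hx => ⟨⟨x, hx⟩, rfl⟩
  refine ⟨K₀, inferInstance, inferInstance, ι, T'.card, θ, ?_, ?_, ?_⟩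
  · intro i
    have h1 : IsAlgebraic (IntermediateField.adjoin ℂ (Set.range fun i => ι (b i))) (θ' i) :=
      Om_alg (L := L) (b := b) (K' := K₀)
        (T := IntermediateField.adjoin ℂ (Set.range fun i => ι (b i))) (b' := fun i => ι (b i))
        (fun i => rfl) (fun i => IntermediateField.subset_adjoin ℂ _ (Set.mem_range_self i)) (hθ' i)
    exact (isAlgebraic_algebraMap_iff (A := Λ) (algebraMap K₀ Λ).injective).1 h1
  · refine ⟨?_, ?_⟩
    · intro h
      have h1 := congrFun h j₀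
      exact hj₀ ((map_eq_zero ι).1 h1)
    · apply IntermediateField.map_injective K₀.val
      rw [← AlgHom.fieldRange_eq_map, IntermediateField.fieldRange_val,
        IntermediateField.adjoin_map]
      refine congrArg (IntermediateField.adjoin ℂ) ?_
      ext y
      constructor
      · rintro ⟨_, (⟨i | i, rfl⟩ | ⟨i, j, hj, rfl⟩), rfl⟩
        · exact Or.inl (Or.inl ⟨i, rfl⟩)
        · exact Or.inl (Or.inr ⟨i, rfl⟩)
        · refine Or.inr ⟨i, j, ?_, ?_⟩
          · intro h0
            apply hj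
            change ι (z j) = 0
            rw [h0, map_zero]
          · change algebraMap L Λ (z i) / algebraMap L Λ (z j) = _
            rw [map_div₀]
      · rintro ((⟨i, rfl⟩ | ⟨i, rfl⟩) | ⟨i, j, hj, rfl⟩)
        · exact ⟨ι (b i), Or.inl ⟨Sum.inl i, rfl⟩, rfl⟩
        · exact ⟨θ i, Or.inl ⟨Sum.inr i, rfl⟩, rfl⟩
        · refine ⟨ι (z i) / ι (z j), Or.inr ⟨i, j, ?_, rfl⟩, ?_⟩
          · exact fun h0 => hj ((map_eq_zero ι).1 h0)
          · change algebraMap L Λ (z i) / algebraMap L Λ (z j) = _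
            rw [map_div₀]
  · -- the maps over `K₀`
    have hp : ∀ j, ∃ p₀ : K₀[X], p₀.map φ = p j := fun j => exists_lift φ fun i =>
      hφr _ (hSK (Set.mem_iUnion.2 ⟨j, (p j).coeff i, Or.inl (Or.inl ⟨i, rfl⟩), rfl⟩))
    have hq : ∀ j, ∃ q₀ : K₀[X], q₀.map φ = q j := fun j => exists_lift φ fun i =>
      hφr _ (hSK (Set.mem_iUnion.2 ⟨j, (q j).coeff i, Or.inl (Or.inr ⟨i, rfl⟩), rfl⟩))
    choose p₀ hp₀ using hp
    choose q₀ hq₀ using hq
    refine ⟨J, hJ, d, p₀, q₀, hd, ?_, ?_, ?_, ?_⟩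
    · intro j
      have h1 := hco j
      rw [← hp₀, ← hq₀] at h1
      exact (Polynomial.isCoprime_map φ).1 h1
    · intro j
      rw [← hmax j, ← hp₀, ← hq₀, natDegree_map, natDegree_map]
    · intro j
      have h1 : P j ⊆ Option.map φ '' prePer (d j) (p₀ j) (q₀ j) := by
        intro y hy
        obtain ⟨y₀, rfl⟩ : ∃ y₀, Option.map φ y₀ = y := by
          cases y with
          | none => exact ⟨none, rfl⟩
          | some x =>
            obtain ⟨y, hy2⟩ := hφr x (hSK (Set.mem_iUnion.2 ⟨j, x, Or.inr hy, rfl⟩))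
            exact ⟨some y, by rw [Option.map_some, hy2]⟩
        refine ⟨y₀, prePer_of_map φ ?_, rfl⟩
        rw [hp₀, hq₀]
        exact hP1 j hy
      calc (B (d j) : ℕ∞) = (P j).encard := (hP2 j).symm
        _ ≤ (Option.map φ '' prePer (d j) (p₀ j) (q₀ j)).encard := Set.encard_le_encard h1
        _ ≤ (prePer (d j) (p₀ j) (q₀ j)).encard := Set.encard_image_le _ _
    · intro F hdef hbF
      -- `E` is algebraic over `K₀`
      have halgK : Algebra.IsAlgebraic K₀ Λ := alg_of_L fun x => ⟨ι x, rfl⟩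
      have hφalg : ∀ y : EE Λ b z, ∃ R : K₀[X], R ≠ 0 ∧ R.eval₂ φ y = 0 := by
        intro y
        obtain ⟨R, hR, hR2⟩ := halgK.isAlgebraic (y : Λ)
        refine ⟨R, hR, ?_⟩
        apply (algebraMap (EE Λ b z) Λ).injective
        rw [Polynomial.hom_eval₂, map_zero]
        exact hR2
      set F' : IntermediateField (Om Λ b) (EE Λ b z) :=
        IntermediateField.adjoin (Om Λ b) (φ '' (F : Set K₀)) with hF'
      have hdef' : ∀ j, DefinedOver (d j) (p j) (q j) F' := by
        intro j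
        have h1 := definedOver_map φ hφalg (F' := F')
          (fun x hx => IntermediateField.subset_adjoin _ _ ⟨x, hx, rfl⟩) (hdef j)
        rw [hp₀, hq₀] at h1
        exact h1
      have halg := hF F' hdef'
      -- the elements of `F'` are algebraic over `F`
      have hmem : ∀ u ∈ F', ((u : EE Λ b z) : Λ) ∈ algebraicClosure F Λ := by
        intro u hu
        induction hu using IntermediateField.adjoin_induction with
        | mem x hx =>
          obtain ⟨y, hy, rfl⟩ := hx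
          exact mem_algebraicClosure_iff.2
            (isAlgebraic_algebraMap (R := F) (A := Λ) (⟨y, hy⟩ : F))
        | algebraMap c =>
          refine mem_algebraicClosure_iff.2 ?_
          exact Om_alg (L := L) (b := b) (K' := K₀) (T := F) (b' := fun i => ι (b i))
            (fun i => rfl) (fun i => hbF (Sum.inl i)) c.2
        | add x y _ _ hx hy => exact add_mem hx hy
        | inv x _ hx => exact inv_mem hx
        | mul x y _ _ hx hy => exact mul_mem hx hy
      refine ⟨fun x => ?_⟩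
      have h1 := halg.isAlgebraic (φ x)
      let f : F' →+* algebraicClosure F Λ :=
        { toFun := fun u => ⟨((u : EE Λ b z) : Λ), hmem u u.2⟩
          map_one' := rfl
          map_mul' := fun x y => rfl
          map_zero' := rfl
          map_add' := fun x y => rfl }
      have h2 : IsAlgebraic (algebraicClosure F Λ) (algebraMap (EE Λ b z) Λ (φ x)) :=
        h1.ringHom_of_comp_eq f (algebraMap (EE Λ b z) Λ) f.injective (RingHom.ext fun u => rfl)
      have h3 : IsAlgebraic F (algebraMap (EE Λ b z) Λ (φ x)) := h2.restrictScalars F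
      exact (isAlgebraic_algebraMap_iff (A := Λ) (algebraMap K₀ Λ).injective).1 h3

end

theorem dsc2 : S_dsc2 := by
  intro B β _ M L _ _ b z w hgen htr H
  obtain ⟨hz, hg⟩ := hgen
  obtain ⟨j₀, hj₀⟩ := Function.ne_iff.1 hz
  have hcl : IsAlgClosed (Om (AlgebraicClosure L) b) := Om_closed b
  have hj₀' : z j₀ ≠ 0 := hj₀
  exact key (AlgebraicClosure L) B hg hj₀' (H (Om (AlgebraicClosure L) b)
    (EE (AlgebraicClosure L) b z) (bb (AlgebraicClosure L) b) (zz (AlgebraicClosure L) hg j₀)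
    (Om_algebraic b) (zz_ne hg hj₀') (coords_zz hg hj₀') (fun G hG h => rel_zz hg G hG h)
    (trdeg_EE hg htr))

theorem dsc : S_dsc := by
  intro B β _ M L _ _ b z w hgen htr H
  exact dsc2 B β M L b z w hgen htr fun Ω E _ _ _ _ _ _ _ b' z' _ h1 h2 h3 h4 =>
    H Ω E b' z' h1 h2 h3 h4

end Pool.Agent.J6H75.FM
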