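import Pool.Agent.J6H55.FM.Defs

/-!
# FM-DSC: from the geometric generic fibre to a finite cover of the base
-/

set_option autoImplicit false

namespace Pool.Agent.J6H75.FM

open Polynomial
open Pool.Agent.J6H55.FM
open Pool.Agent.W602.GT (coords)
open Pool.Agent.W277.UH (ratP1)
open Pool.Agent.Q103.EC (prePer ratP1_map)
open Pool.Agent.Q103.VR (DefinedOver)

section rv

variable {β : Type} {M : ℕ}

theorem rv_map {E E' : Type} [Field E] [Algebra ℂ E] [Field E'] [Algebra ℂ E'] (φ : E →ₐ[ℂ] E')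
    (b : β → E) (z : Fin (M + 1) → E) (G : MvPolynomial (β ⊕ Fin (M + 1)) ℂ) :
    φ (rv b z G) = rv (fun i => φ (b i)) (fun j => φ (z j)) G := by
  unfold rv
  rw [MvPolynomial.comp_aeval_apply]
  congr 2
  funext i
  rcases i with i | i <;> rfl

theorem rv_smul {E : Type} [Field E] [Algebra ℂ E] (b : β → E) (z : Fin (M + 1) → E) (t : E)
    {G : MvPolynomial (β ⊕ Fin (M + 1)) ℂ} {e : ℕ}
    (hG : MvPolynomial.IsWeightedHomogeneous
      (Sum.elim (fun _ => 0) (fun _ => 1) : β ⊕ Fin (M + 1) → ℕ) G e) :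
    rv b (fun j => t * z j) G = t ^ e * rv b z G := by
  unfold rv
  rw [MvPolynomial.aeval_def, MvPolynomial.aeval_def, MvPolynomial.eval₂_eq,
    MvPolynomial.eval₂_eq, Finset.mul_sum]
  refine Finset.sum_congr rfl fun d hd => ?_
  have h1 := hG (MvPolynomial.mem_support_iff.1 hd)
  have h2 : ∏ i ∈ d.support, (Sum.elim b (fun j => t * z j) i) ^ d i =
      t ^ e * ∏ i ∈ d.support, (Sum.elim b z i) ^ d i := by
    rw [← h1, Finsupp.weight_apply, Finsupp.sum, ← Finset.prod_pow_eq_pow_sum,
      ← Finset.prod_mul_distrib]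
    refine Finset.prod_congr rfl fun i _ => ?_
    rcases i with i | i
    · simp
    · simp [mul_pow]
  rw [h2]
  ring

end rv

/-- the points of a map over a larger field -/
theorem prePer_of_map {K E : Type} [Field K] [Field E] (φ : K →+* E) {d : ℕ} {p q : K[X]}
    {z : Option K} (h : Option.map φ z ∈ prePer d (p.map φ) (q.map φ)) : z ∈ prePer d p q := by
  have hs : Function.Semiconj (Option.map φ) (ratP1 p q d) (ratP1 (p.map φ) (q.map φ) d) :=
    fun y => ratP1_map φ d p q y
  have h1 : Option.map φ '' (Set.range fun m : ℕ => (ratP1 p q d)^[m] z) =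
      Set.range fun m : ℕ => (ratP1 (p.map φ) (q.map φ) d)^[m] (Option.map φ z) := by
    rw [← Set.range_comp]
    congr 1
    funext m
    exact (hs.iterate_right m).eq z
  have h2 : (Option.map φ '' (Set.range fun m : ℕ => (ratP1 p q d)^[m] z)).Finite := by
    rw [h1]
    exact h
  exact h2.of_finite_image (Option.map_injective φ.injective).injOn

/-- transport of `DefinedOver` -/
theorem definedOver_map {k k' K E : Type} [Field k] [Field k'] [Field K] [Field E] [Algebra k K]
    [Algebra k' E] (φ : K →+* E) (hφ : ∀ y : E, ∃ P : K[X], P ≠ 0 ∧ P.eval₂ φ y = 0)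
    {d : ℕ} {p q : K[X]} {F : IntermediateField k K} {F' : IntermediateField k' E}
    (hF : ∀ x ∈ F, φ x ∈ F') (h : DefinedOver d p q F) :
    DefinedOver d (p.map φ) (q.map φ) F' := by
  let _ : Algebra K E := φ.toAlgebra
  have halg : Algebra.IsAlgebraic K E := by
    refine ⟨fun y => ?_⟩
    obtain ⟨P, hP, hP2⟩ := hφ y
    exact ⟨P, hP, hP2⟩
  have halg2 : Algebra.IsAlgebraic K (AlgebraicClosure E) := Algebra.IsAlgebraic.trans K E _
  have hcl : IsAlgClosure K (AlgebraicClosure E) := ⟨inferInstance, halg2⟩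
  let σ : AlgebraicClosure K ≃ₐ[K] AlgebraicClosure E := IsAlgClosure.equiv K _ _
  have hσ : ∀ x : K, σ (algebraMap K (AlgebraicClosure K) x) =
      algebraMap E (AlgebraicClosure E) (φ x) := by
    intro x
    rw [σ.commutes]
    rfl
  obtain ⟨p', q', a, b, c, e, hdet, hco, hmax, hal, hconj⟩ := h
  let s : AlgebraicClosure K →+* AlgebraicClosure E := (σ : AlgebraicClosure K →+* AlgebraicClosure E)
  have hs : ∀ x : K, s (algebraMap K (AlgebraicClosure K) x) =
      algebraMap E (AlgebraicClosure E) (φ x) := hσ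
  have hscomp : s.comp (algebraMap K (AlgebraicClosure K)) =
      (algebraMap E (AlgebraicClosure E)).comp φ := RingHom.ext hs
  let f : F →+* F' :=
    { toFun := fun x => ⟨φ x, hF x x.2⟩
      map_one' := Subtype.ext (map_one φ)
      map_mul' := fun x y => Subtype.ext (map_mul φ (x : K) (y : K))
      map_zero' := Subtype.ext (map_zero φ)
      map_add' := fun x y => Subtype.ext (map_add φ (x : K) (y : K)) }
  have hcomp : (algebraMap F' (AlgebraicClosure E)).comp f =
      s.comp (algebraMap F (AlgebraicClosure K)) := by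
    ext x
    exact (hs (x : K)).symm
  have halg3 : ∀ y : AlgebraicClosure K, IsAlgebraic F y → IsAlgebraic F' (s y) := by
    intro y hy
    exact hy.ringHom_of_comp_eq f s f.injective hcomp
  refine ⟨p'.map s, q'.map s, s a, s b, s c, s e, ?_, ?_, ?_, ?_, ?_⟩
  · rw [← map_mul, ← map_mul, ← map_sub]
    exact (map_ne_zero s).2 hdet
  · exact hco.map (mapRingHom s)
  · rw [natDegree_map, natDegree_map, hmax]
  · intro i
    rw [coeff_map, coeff_map]
    exact ⟨halg3 _ (hal i).1, halg3 _ (hal i).2⟩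
  · intro y
    have hlin : ∀ u v : AlgebraicClosure K, (C (s u) * X + C (s v) : (AlgebraicClosure E)[X]) =
        (C u * X + C v : (AlgebraicClosure K)[X]).map s := by
      intro u v
      simp
    have hpp : ∀ r : K[X], (r.map φ).map (algebraMap E (AlgebraicClosure E)) =
        (r.map (algebraMap K (AlgebraicClosure K))).map s := by
      intro r
      rw [Polynomial.map_map, Polynomial.map_map, hscomp]
    obtain ⟨y₀, rfl⟩ : ∃ y₀, Option.map s y₀ = y := by
      refine ⟨Option.map σ.symm y, ?_⟩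
      cases y with
      | none => rfl
      | some y =>
        rw [Option.map_some, Option.map_some]
        exact congrArg some (σ.apply_symm_apply y)
    rw [hlin, hlin, hpp, hpp, ← ratP1_map, ← ratP1_map, ← ratP1_map, ← ratP1_map, hconj]

section fields

variable {β : Type} {M : ℕ} {L Λ : Type} [Field L] [Algebra ℂ L] [Field Λ] [Algebra ℂ Λ]
  [Algebra L Λ] [IsScalarTower ℂ L Λ]

variable (Λ) in
/-- the algebraic closure of `ℂ(b)` in `Λ` -/
noncomputable def Om (b : β → L) : IntermediateField ℂ Λ :=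
  (algebraicClosure (IntermediateField.adjoin ℂ (Set.range b)) Λ).restrictScalars ℂ

theorem mem_Om {b : β → L} {x : Λ} :
    x ∈ Om Λ b ↔ IsAlgebraic (IntermediateField.adjoin ℂ (Set.range b)) x :=
  mem_algebraicClosure_iff

theorem b_mem_Om (b : β → L) (i : β) : algebraMap L Λ (b i) ∈ Om Λ b := by
  rw [mem_Om]
  exact isAlgebraic_algebraMap (R := IntermediateField.adjoin ℂ (Set.range b)) (A := Λ)
    ⟨b i, IntermediateField.subset_adjoin ℂ _ ⟨i, rfl⟩⟩

theorem Om_closed [IsAlgClosed Λ] (b : β → L) : IsAlgClosed (Om Λ b) := by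
  have h : IsAlgClosed (algebraicClosure (IntermediateField.adjoin ℂ (Set.range b)) Λ) :=
    IsAlgClosure.isAlgClosed (IntermediateField.adjoin ℂ (Set.range b))
  exact h

variable (Λ) in
/-- the ratios in `Λ` -/
def Rt (z : Fin (M + 1) → L) : Set Λ := {y | ∃ i j, z j ≠ 0 ∧ y = algebraMap L Λ (z i / z j)}

variable (Λ) in
/-- the field generated by the ratios over the algebraic closure of `ℂ(b)` -/
noncomputable def EE (b : β → L) (z : Fin (M + 1) → L) : IntermediateField (Om Λ b) Λ :=
  IntermediateField.adjoin (Om Λ b) (Rt Λ z)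

theorem L_mem {b : β → L} {z : Fin (M + 1) → L}
    (hgen : IntermediateField.adjoin ℂ (Set.range b ∪ ratios z) = ⊤) {S : IntermediateField ℂ Λ}
    (h1 : ∀ i, algebraMap L Λ (b i) ∈ S) (h2 : Rt Λ z ⊆ S) (x : L) : algebraMap L Λ x ∈ S := by
  have hx : x ∈ IntermediateField.adjoin ℂ (Set.range b ∪ ratios z) := by
    rw [hgen]
    exact IntermediateField.mem_top
  have h3 : IntermediateField.adjoin ℂ (Set.range b ∪ ratios z) ≤
      S.comap (IsScalarTower.toAlgHom ℂ L Λ) := by
    rw [IntermediateField.adjoin_le_iff]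
    rintro y (⟨i, rfl⟩ | ⟨i, j, hj, rfl⟩)
    · exact h1 i
    · exact h2 ⟨i, j, hj, rfl⟩
  exact h3 hx

theorem L_mem_EE {b : β → L} {z : Fin (M + 1) → L}
    (hgen : IntermediateField.adjoin ℂ (Set.range b ∪ ratios z) = ⊤) (x : L) :
    algebraMap L Λ x ∈ EE Λ b z := by
  have h := L_mem (S := (EE Λ b z).restrictScalars ℂ) hgen (fun i => ?_) ?_ x
  · exact h
  · exact (EE Λ b z).algebraMap_mem ⟨_, b_mem_Om b i⟩
  · exact IntermediateField.subset_adjoin _ _

/-- elements of `Λ` are algebraic over all fields which contain `L` -/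
theorem alg_of_L [Algebra.IsAlgebraic L Λ] {S : Type} [Field S] [Algebra S Λ]
    (h : ∀ x : L, ∃ s : S, algebraMap S Λ s = algebraMap L Λ x) : Algebra.IsAlgebraic S Λ := by
  choose g hg using h
  let f : L →+* S :=
    { toFun := g
      map_one' := (algebraMap S Λ).injective (by rw [hg, map_one, map_one])
      map_mul' := fun x y => (algebraMap S Λ).injective (by rw [hg, map_mul, map_mul, hg, hg])
      map_zero' := (algebraMap S Λ).injective (by rw [hg, map_zero, map_zero])
      map_add' := fun x y => (algebraMap S Λ).injective (by rw [hg, map_add, map_add, hg, hg]) }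
  refine ⟨fun y => ?_⟩
  exact (Algebra.IsAlgebraic.isAlgebraic (R := L) y).ringHom_of_comp_eq f (RingHom.id Λ) f.injective
    (RingHom.ext fun x => hg x)

theorem trdeg_EE [Algebra.IsAlgebraic L Λ] {b : β → L} {z : Fin (M + 1) → L} {w : ℕ}
    (hgen : IntermediateField.adjoin ℂ (Set.range b ∪ ratios z) = ⊤)
    (htr : Algebra.trdeg (IntermediateField.adjoin ℂ (Set.range b)) L = w) :
    Algebra.trdeg (Om Λ b) (EE Λ b z) = w := by
  have e1 := trdeg_add_eq (IntermediateField.adjoin ℂ (Set.range b)) L (A := Λ)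
  rw [trdeg_eq_zero (R := L) (A := Λ), add_zero, htr] at e1
  have e3 := trdeg_add_eq (IntermediateField.adjoin ℂ (Set.range b))
    (algebraicClosure (IntermediateField.adjoin ℂ (Set.range b)) Λ) (A := Λ)
  rw [trdeg_eq_zero (R := IntermediateField.adjoin ℂ (Set.range b)), zero_add, ← e1] at e3
  have e5 := trdeg_add_eq (Om Λ b) (EE Λ b z) (A := Λ)
  have halg : Algebra.IsAlgebraic (EE Λ b z) Λ :=
    alg_of_L fun x => ⟨⟨_, L_mem_EE hgen x⟩, rfl⟩
  rw [trdeg_eq_zero (R := EE Λ b z) (A := Λ), add_zero] at e5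
  rw [e5]
  exact e3

/-- the elements of `ℂ(b)` are in all fields which contain the `b` -/
theorem base_mem {b : β → L} {K' : Type} [Field K'] [Algebra ℂ K'] [Algebra K' Λ]
    [IsScalarTower ℂ K' Λ] {T : IntermediateField ℂ K'} {b' : β → K'}
    (h1 : ∀ i, algebraMap K' Λ (b' i) = algebraMap L Λ (b i)) (h2 : ∀ i, b' i ∈ T) {x : L}
    (hx : x ∈ IntermediateField.adjoin ℂ (Set.range b)) :
    ∃ s : T, algebraMap K' Λ (s : K') = algebraMap L Λ x := by
  induction hx using IntermediateField.adjoin_induction with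
  | mem x hx =>
    obtain ⟨i, rfl⟩ := hx
    exact ⟨⟨b' i, h2 i⟩, h1 i⟩
  | algebraMap c =>
    refine ⟨algebraMap ℂ T c, ?_⟩
    rw [← IsScalarTower.algebraMap_apply ℂ L Λ]
    change algebraMap K' Λ (algebraMap ℂ K' c) = _
    rw [← IsScalarTower.algebraMap_apply ℂ K' Λ]
  | add x y _ _ hx hy =>
    obtain ⟨s, hs⟩ := hx
    obtain ⟨t, ht⟩ := hy
    exact ⟨s + t, by rw [map_add, ← hs, ← ht, ← map_add]; rfl⟩
  | inv x _ hx =>
    obtain ⟨s, hs⟩ := hx
    exact ⟨s⁻¹, by rw [map_inv₀, ← hs, ← map_inv₀]; rfl⟩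
  | mul x y _ _ hx hy =>
    obtain ⟨s, hs⟩ := hx
    obtain ⟨t, ht⟩ := hy
    exact ⟨s * t, by rw [map_mul, ← hs, ← ht, ← map_mul]; rfl⟩

/-- the elements of `Om` are algebraic over all fields which contain the `b` -/
theorem Om_alg {b : β → L} {K' : Type} [Field K'] [Algebra ℂ K'] [Algebra K' Λ]
    [IsScalarTower ℂ K' Λ] {T : IntermediateField ℂ K'} {b' : β → K'}
    (h1 : ∀ i, algebraMap K' Λ (b' i) = algebraMap L Λ (b i)) (h2 : ∀ i, b' i ∈ T) {y : Λ}
    (hy : y ∈ Om Λ b) : IsAlgebraic T y := by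
  have h3 : ∀ x : IntermediateField.adjoin ℂ (Set.range b), ∃ s : T,
      algebraMap T Λ s = algebraMap (IntermediateField.adjoin ℂ (Set.range b)) Λ x :=
    fun x => base_mem h1 h2 x.2
  choose g hg using h3
  let f : IntermediateField.adjoin ℂ (Set.range b) →+* T :=
    { toFun := g
      map_one' := (algebraMap T Λ).injective (by rw [hg, map_one, map_one])
      map_mul' := fun x y => (algebraMap T Λ).injective (by rw [hg, map_mul, map_mul, hg, hg])
      map_zero' := (algebraMap T Λ).injective (by rw [hg, map_zero, map_zero])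
      map_add' := fun x y => (algebraMap T Λ).injective (by rw [hg, map_add, map_add, hg, hg]) }
  exact (mem_Om.1 hy).ringHom_of_comp_eq f (RingHom.id Λ) f.injective (RingHom.ext fun x => hg x)

end fields

theorem exists_finset {F E : Type} [Field F] [Field E] [Algebra F E] {A S : Set E} (hS : S.Finite)
    (h : S ⊆ IntermediateField.adjoin F A) :
    ∃ T : Finset E, (T : Set E) ⊆ A ∧ S ⊆ IntermediateField.adjoin F (T : Set E) := by
  classical
  have h1 : ∀ s : E, ∃ T : Finset E, (T : Set E) ⊆ A ∧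
      (s ∈ S → s ∈ IntermediateField.adjoin F (T : Set E)) := by
    intro s
    by_cases hs : s ∈ S
    · obtain ⟨T, h1, h2⟩ := IntermediateField.exists_finset_of_mem_adjoin (h hs)
      exact ⟨T, h1, fun _ => h2⟩
    · exact ⟨∅, by simp, fun h => absurd h hs⟩
  choose g hg1 hg2 using h1
  refine ⟨hS.toFinset.biUnion g, ?_, ?_⟩
  · intro x hx
    obtain ⟨s, _, hx⟩ := Finset.mem_biUnion.1 (Finset.mem_coe.1 hx)
    exact hg1 s hx
  · intro s hs
    refine IntermediateField.adjoin.mono F _ _ ?_ (hg2 s hs)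
    intro x hx
    exact Finset.mem_coe.2 (Finset.mem_biUnion.2 ⟨s, hS.mem_toFinset.2 hs, hx⟩)

theorem range_coeff_finite {E : Type} [Field E] (p : E[X]) : (Set.range p.coeff).Finite := by
  classical
  refine (Finset.finite_toSet (insert 0 (p.support.image p.coeff))).subset ?_
  rintro _ ⟨i, rfl⟩
  rw [Finset.mem_coe, Finset.mem_insert]
  by_cases h : p.coeff i = 0
  · exact Or.inl h
  · exact Or.inr (Finset.mem_image.2 ⟨i, Polynomial.mem_support_iff.2 h, rfl⟩)

theorem exists_lift {K E : Type} [Field K] [Field E] (φ : K →+* E) {p : E[X]}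
    (h : ∀ i, ∃ x, φ x = p.coeff i) : ∃ p₀ : K[X], p₀.map φ = p := by
  have h1 : p ∈ Polynomial.lifts φ := by
    rw [Polynomial.lifts_iff_coeff_lifts]
    exact fun i => h i
  exact h1

end Pool.Agent.J6H75.FM
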